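import Mathlib
import Pool.Agent.H54.G.H58R.Loc

set_option autoImplicit false

/-!
# Valuations of `1 - ξ`, and sums of terms with distinct valuations
-/

namespace Pool.Agent.H58R

open Pool.Agent.H58P (Qb ht qb_isIntegral)

lemma exists_prim (n : ℕ) (hn : 0 < n) : ∃ ζ : Qb, IsPrimitiveRoot ζ n := by
  have hne : NeZero (n : Qb) := ⟨by exact_mod_cast hn.ne'⟩
  have hdeg : (Polynomial.cyclotomic n Qb).degree ≠ 0 := by
    rw [Polynomial.degree_cyclotomic]
    exact_mod_cast (Nat.totient_pos.mpr hn).ne'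
  obtain ⟨ζ, hζ⟩ := IsAlgClosed.exists_root _ hdeg
  exact ⟨ζ, Polynomial.isRoot_cyclotomic_iff.mp hζ⟩

section
variable {G : Type*} [LinearOrderedCommGroupWithZero G] (v : Valuation Qb G)

lemma val_root (ξ : Qb) (n : ℕ) (hn : 0 < n) (h : ξ ^ n = 1) : v ξ = 1 := by
  have h1 : v ξ ^ n = 1 := by rw [← map_pow, h, map_one]
  exact (pow_eq_one_iff_of_nonneg zero_le hn.ne').mp h1

lemma val_one_sub_pow_le (ξ : Qb) (h : v ξ = 1) (m : ℕ) : v (1 - ξ ^ m) ≤ v (1 - ξ) := by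
  have e : 1 - ξ ^ m = (1 - ξ) * ∑ i ∈ Finset.range m, ξ ^ i := (mul_neg_geom_sum ξ m).symm
  rw [e, map_mul]
  calc v (1 - ξ) * v (∑ i ∈ Finset.range m, ξ ^ i) ≤ v (1 - ξ) * 1 := by
        gcongr
        apply Valuation.map_sum_le
        intro i _
        rw [map_pow, h, one_pow]
    _ = _ := mul_one _

lemma primitive_of (p : ℕ) (hp : p.Prime) (ξ : Qb) (h : ξ ^ p = 1) (h1 : ξ ≠ 1) :
    IsPrimitiveRoot ξ p := by
  have hp' : Fact p.Prime := ⟨hp⟩
  have := IsPrimitiveRoot.orderOf ξ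
  rwa [orderOf_eq_prime h h1] at this

lemma val_one_sub_eq (p : ℕ) (hp : p.Prime) (ξ η : Qb) (h : ξ ^ p = 1) (h1 : ξ ≠ 1)
    (h' : η ^ p = 1) (h1' : η ≠ 1) : v (1 - ξ) = v (1 - η) := by
  have hp' : Fact p.Prime := ⟨hp⟩
  have key : ∀ ξ η : Qb, ξ ^ p = 1 → ξ ≠ 1 → η ^ p = 1 → v (1 - η) ≤ v (1 - ξ) := by
    intro ξ η h h1 h'
    obtain ⟨i, -, hi⟩ := (primitive_of p hp ξ h h1).eq_pow_of_pow_eq_one h'
    rw [← hi]
    exact val_one_sub_pow_le v ξ (val_root v ξ p hp.pos h) i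
  exact le_antisymm (key η ξ h' h1' h) (key ξ η h h1 h')

lemma val_one_sub_pow (p : ℕ) (hp : p.Prime) (ξ : Qb) (h : ξ ^ p = 1) (h1 : ξ ≠ 1) :
    v (1 - ξ) ^ (p - 1) = v (p : Qb) := by
  have hprim := primitive_of p hp ξ h h1
  obtain ⟨m, rfl⟩ : ∃ m, p = m + 1 := ⟨p - 1, by have := hp.pos; omega⟩
  have h2 := hprim.prod_one_sub_pow_eq_order
  have h3 : v (((m + 1 : ℕ)) : Qb) = ∏ k ∈ Finset.range m, v (1 - ξ ^ (k + 1)) := by
    rw [← map_prod, h2]
    push_cast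
    rfl
  rw [h3, Nat.add_sub_cancel]
  rw [Finset.prod_congr rfl (g := fun _ => v (1 - ξ))]
  · rw [Finset.prod_const, Finset.card_range]
  · intro k hk
    rw [Finset.mem_range] at hk
    apply val_one_sub_eq v (m + 1) hp _ _ _ _ h h1
    · rw [← pow_mul, mul_comm, pow_mul, h, one_pow]
    · intro h4
      have := (hprim.pow_eq_one_iff_dvd (k + 1)).mp h4
      have := Nat.le_of_dvd (by omega) this
      omega

lemma val_one_sub_pow_le' (p : ℕ) (hp : p.Prime) (ξ : Qb) (h : ξ ^ p = 1) :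
    v (1 - ξ) ^ (p - 1) ≤ v (p : Qb) := by
  by_cases h1 : ξ = 1
  · have := hp.two_le
    rw [h1, sub_self, map_zero, zero_pow (by omega)]
    exact zero_le
  · exact (val_one_sub_pow v p hp ξ h h1).le

/-- the factorisation of `z ^ p - β ^ p` -/
lemma val_pow_sub (p : ℕ) (hp : p.Prime) (z β : Qb)
    (h : v (z - β) ^ (p - 1) ≤ v (p : Qb) * v β ^ (p - 1)) :
    v (z ^ p - β ^ p) ^ (p - 1) ≤ v (p : Qb) ^ p * v (β ^ p) ^ (p - 1) := by
  obtain ⟨ζ, hζ⟩ := exists_prim p hp.pos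
  rw [hζ.pow_sub_pow_eq_prod_sub_mul z β hp.pos, map_prod, ← Finset.prod_pow]
  have hcard : (Polynomial.nthRootsFinset p (1 : Qb)).card = p := hζ.card_nthRootsFinset
  calc ∏ ξ ∈ Polynomial.nthRootsFinset p (1 : Qb), v (z - ξ * β) ^ (p - 1)
      ≤ ∏ ξ ∈ Polynomial.nthRootsFinset p (1 : Qb), (v (p : Qb) * v β ^ (p - 1)) := by
        apply Finset.prod_le_prod'
        intro ξ hξ
        have hξ' : ξ ^ p = 1 := (Polynomial.mem_nthRootsFinset hp.pos (1 : Qb)).mp hξ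
        have e : z - ξ * β = (z - β) + (1 - ξ) * β := by ring
        have h1 : v (z - ξ * β) ≤ max (v (z - β)) (v ((1 - ξ) * β)) := by
          rw [e]; exact v.map_add _ _
        rcases le_max_iff.mp h1 with h2 | h2
        · exact (pow_le_pow_left₀ zero_le h2 _).trans h
        · refine (pow_le_pow_left₀ zero_le h2 _).trans ?_
          rw [map_mul, mul_pow]
          gcongr
          exact val_one_sub_pow_le' v p hp ξ hξ'
    _ = v (p : Qb) ^ p * v (β ^ p) ^ (p - 1) := by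
        rw [Finset.prod_const, hcard, mul_pow, map_pow, ← pow_mul, ← pow_mul, mul_comm (p - 1)]

/-- the valuation of a sum of terms with distinct valuations -/
lemma val_sum {ι : Type*} (s : Finset ι) (T : ι → Qb)
    (hd : ∀ i ∈ s, ∀ j ∈ s, i ≠ j → v (T i) ≠ v (T j)) (i : ι) (hi : i ∈ s) :
    v (T i) ≤ v (∑ j ∈ s, T j) := by
  classical
  obtain ⟨m, hm, hmax⟩ := s.exists_max_image (fun j => v (T j)) ⟨i, hi⟩
  have h1 : v (∑ j ∈ s, T j) = v (T m) := by
    rw [← Finset.add_sum_erase s T hm]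
    by_cases hs : (s.erase m).Nonempty
    · apply Valuation.map_add_eq_of_lt_left
      apply Valuation.map_sum_lt
      · obtain ⟨j, hj⟩ := hs
        have hj' := Finset.mem_erase.mp hj
        have h2 := hmax j hj'.2
        have h3 := hd j hj'.2 m hm hj'.1
        exact (lt_of_le_of_lt zero_le (lt_of_le_of_ne h2 h3)).ne'
      · intro j hj
        have hj' := Finset.mem_erase.mp hj
        exact lt_of_le_of_ne (hmax j hj'.2) (hd j hj'.2 m hm hj'.1)
    · rw [Finset.not_nonempty_iff_eq_empty.mp hs]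
      simp
  rw [h1]
  exact hmax i hi

lemma sum_ne_zero {ι : Type*} (s : Finset ι) (T : ι → Qb)
    (hd : ∀ i ∈ s, ∀ j ∈ s, i ≠ j → v (T i) ≠ v (T j)) (i : ι) (hi : i ∈ s) (hT : T i ≠ 0) :
    ∑ j ∈ s, T j ≠ 0 := by
  intro h
  have h1 := val_sum v s T hd i hi
  rw [h, map_zero] at h1
  have h2 : v (T i) = 0 := le_antisymm h1 zero_le
  exact hT ((Valuation.zero_iff v).mp h2)

end

end Pool.Agent.H58R
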